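import Pool.Agent.R77.LSB.ProfB
import Pool.Agent.TH496.LS_MOD
import Pool.Agent.TH889.LS_W
import Pool.Agent.TH889.LS_DUAL
import Pool.Agent.TH73.LS_LS4
import Pool.Agent.TH986.LS_SUM
import Pool.Agent.TH883.LS.LSB_E4R
import Pool.Agent.TH499.LSC_SUMK
import Pool.Agent.TH346.LSC_ONEK
import Pool.Agent.TH148.LSC_T2K
import Pool.Agent.TH902.LSC_T4K
import Pool.Agent.TH962.LSC_TPK
set_option autoImplicit false

/-! # Local smoothing in terms of the regularity of slices, and for sums of bumps on hyperplanes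

Let `d = m + 1 ≥ 2`, `2 < p ≤ 4`, and let `u` be the solution of the wave equation on `ℝ^d` with
data `u(0) = (I - Δ)^(-s/2) f₀`, `∂ₜu(0) = (I - Δ)^((1-s)/2) f₁`, `s > 0`.

(1) For *all* integrable data,
`∫_1^2 ‖u(t)‖_p^p dt ≤ C ∑_{i=0,1} ∫ ‖f_i(· v_0, …, · v_{m-1}, x v_m)‖_*^p dx`
for all orthonormal bases `v_0, …, v_m` (one for each datum), where for functions `g` on `ℝ^m`
the norm `‖g‖_*` is the atomic norm (infimum of `∑_j N(a_j)^(1/p)` over the countable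
decompositions `g = ∑_j a_j`) for the functional
`N(a) = D^(p-2) (B + D²)`, `D = sup_η |η|^α |â(η)|`, `B = sup_h |h|^(-γ) ∫ |a(y+h) - a(y)|² dy`.
Here `0 ≤ α < m (1 - 1/p)`, `γ > 0` and `s > (m-α)(1-2/p) - γ/p`. For `α = m/2`, `γ = 1` this
threshold is `s_p - 1/p`, so that for `2d/(d-1) ≤ p ≤ 4` the gain is the full conjectured gain
`σ < 1/p` (and for `2 < p ≤ 2d/(d-1)` every `s > 0` is allowed, i.e. `σ < s_p`).

(2) Therefore the estimate of Q1 itself, `∫_1^2 ‖u(t)‖_p^p dt ≤ C (‖f₀‖_p^p + ‖f₁‖_p^p)`, holds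
with this `s` if `γ ≤ (m-α)(p-2)` and if, for some orthonormal basis (depending on the datum) and
for almost all `x`, the slice of the datum is a countable sum of bumps `b_j φ_j((y - c_j)/r_j)`,
`0 < r_j ≤ R`, with profiles `φ_j` for which `D, B ≤ K` and `‖φ_j‖_p^p ≥ 1/K`, such that the sum of
the `L^p` norms of the bumps is at most `Λ` times the `L^p` norm of the slice. The numbers,
positions, sizes, factors and profiles of the bumps depend on `x` in an arbitrary way.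
-/

open MeasureTheory Set
open scoped ENNReal FourierTransform RealInnerProductSpace

namespace Pool.Agent.Results.MP_ee74d2_an.BesovSlices

/-- `ℝ^d` -/
abbrev E (d : ℕ) : Type := EuclideanSpace ℝ (Fin d)

/-- The symbol `(1 + 4π²|ζ|²)^(a/2)` of `(I - Δ)^(a/2)`. -/
noncomputable def bessel {d : ℕ} (a : ℝ) (ζ : E d) : ℝ :=
  (1 + 4 * Real.pi ^ 2 * ‖ζ‖ ^ 2) ^ (a / 2)

/-- For `τ = 0`: the solution `u(t, z)` of the wave equation on `ℝ^d` with data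
`u(0) = (I - Δ)^(-s/2) f₀`, `∂ₜu(0) = (I - Δ)^((1-s)/2) f₁`, i.e. the inverse Fourier transform of
`cos(2πt|ζ|) (1+4π²|ζ|²)^(-s/2) f₀^(ζ) + sin(2πt|ζ|)/(2π|ζ|) (1+4π²|ζ|²)^((1-s)/2) f₁^(ζ)`.
For `τ > 0`: the same with the factor `exp(-τ|ζ|²)` (the solution regularised by the heat flow). -/
noncomputable def wave {d : ℕ} (s τ : ℝ) (f₀ f₁ : E d → ℂ) (t : ℝ) (z : E d) : ℂ :=
  ∫ ζ : E d, Complex.exp (((2 * Real.pi * ⟪z, ζ⟫ : ℝ) : ℂ) * Complex.I) *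
    (((Real.exp (-(τ * ‖ζ‖ ^ 2)) : ℝ) : ℂ) *
      (((Real.cos (2 * Real.pi * (t * ‖ζ‖)) * bessel (-s) ζ : ℝ) : ℂ) * 𝓕 f₀ ζ +
       ((Real.sin (2 * Real.pi * (t * ‖ζ‖)) / (2 * Real.pi * ‖ζ‖) * bessel (1 - s) ζ : ℝ) : ℂ) *
        𝓕 f₁ ζ))

/-- The data to which the estimates apply: `0 < τ ≤ 1`, or `τ = 0` and `(I - Δ)^(-s/2) f₀` and
`(I - Δ)^(-s/2) f₁` have integrable Fourier transforms (this holds for Schwartz functions). -/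
def Admissible {d : ℕ} (s τ : ℝ) (f₀ f₁ : E d → ℂ) : Prop :=
  0 ≤ τ ∧ τ ≤ 1 ∧ (0 < τ ∨ (Integrable (fun ζ => ((bessel (-s) ζ : ℝ) : ℂ) * 𝓕 f₀ ζ) ∧
    Integrable (fun ζ => ((bessel (-s) ζ : ℝ) : ℂ) * 𝓕 f₁ ζ)))

/-- The estimate of Q1 for data in the class `D`: there is a constant `C` such that for all
integrable `f₀, f₁` in `D`,
`∫_1^2 ‖u(t)‖_p^p dt ≤ C (‖f₀‖_p^p + ‖f₁‖_p^p)`. -/
def Estimate {d : ℕ} (s p : ℝ) (D : (E d → ℂ) → Prop) : Prop :=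
  ∃ C : ℝ, 0 < C ∧ ∀ (f₀ f₁ : E d → ℂ) (τ : ℝ), Integrable f₀ → Integrable f₁ → D f₀ → D f₁ →
    Admissible s τ f₀ f₁ →
    ∫⁻ t in Icc (1 : ℝ) 2, ∫⁻ z, ‖wave s τ f₀ f₁ t z‖ₑ ^ p ≤
      ENNReal.ofReal C * ((∫⁻ z, ‖f₀ z‖ₑ ^ p) + ∫⁻ z, ‖f₁ z‖ₑ ^ p)

/-- The slice `y ↦ f(Σ_{i<m} y_i v_i + x v_m)` of `f`. -/
noncomputable def slice {m : ℕ} (v : OrthonormalBasis (Fin (m + 1)) ℝ (E (m + 1)))
    (f : E (m + 1) → ℂ) (x : ℝ) : (Fin m → ℝ) → ℂ :=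
  fun y => f (∑ i, y i • v i.castSucc + x • v (Fin.last m))

/-- The Euclidean length of a vector in `ℝ^m`. -/
noncomputable def len {m : ℕ} (h : Fin m → ℝ) : ℝ := Real.sqrt (∑ i, h i ^ 2)

/-- The Fourier transform `ĝ(η)` on `ℝ^m`. -/
noncomputable def hat {m : ℕ} (g : (Fin m → ℝ) → ℂ) (η : Fin m → ℝ) : ℂ :=
  ∫ y : Fin m → ℝ, Complex.exp (((2 * Real.pi * -(∑ i, y i * η i) : ℝ) : ℂ) * Complex.I) * g y

/-- `sup_h |h|^(-γ) ∫ |g(y+h) - g(y)|² dy`. -/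
noncomputable def besov {m : ℕ} (γ : ℝ) (g : (Fin m → ℝ) → ℂ) : ℝ≥0∞ :=
  ⨆ h : Fin m → ℝ, (∫⁻ y : Fin m → ℝ, ‖g (y + h) - g y‖ₑ ^ 2) / ENNReal.ofReal (len h ^ γ)

/-- `sup_η |η|^α |ĝ(η)|`. -/
noncomputable def decay {m : ℕ} (α : ℝ) (g : (Fin m → ℝ) → ℂ) : ℝ≥0∞ :=
  ⨆ η : Fin m → ℝ, ENNReal.ofReal (len η ^ α) * ‖hat g η‖ₑ

/-- The functional `D^(p-2) (B + D²)` with `D = decay`, `B = besov`. -/
noncomputable def cost {m : ℕ} (α γ p : ℝ) (g : (Fin m → ℝ) → ℂ) : ℝ≥0∞ :=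
  decay α g ^ (p - 2) * (besov γ g + decay α g ^ 2)

/-- `g` is the sum of the integrable functions `a_0, a_1, …`, whose `L^1` norms are summable. -/
def Decomposes {m : ℕ} (g : (Fin m → ℝ) → ℂ) (a : ℕ → (Fin m → ℝ) → ℂ) : Prop :=
  (∀ j, Integrable (a j)) ∧ ∑' j, ∫⁻ y, ‖a j y‖ₑ ≠ ⊤ ∧ ∀ᵐ y, g y = ∑' j, a j y

/-- The atomic norm: the infimum of `Σ_j N(a_j)^(1/p)` over the decompositions `g = Σ_j a_j`, where
`N = cost`. -/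
noncomputable def atomicNorm {m : ℕ} (α γ p : ℝ) (g : (Fin m → ℝ) → ℂ) : ℝ≥0∞ :=
  ⨅ (a : ℕ → (Fin m → ℝ) → ℂ) (_ : Decomposes g a), ∑' j, cost α γ p (a j) ^ (1 / p)

/-- Bumps `g(y) = b φ((y - c)/r)` of size `0 < r ≤ R` with a profile `φ` for which
`sup_h |h|^(-γ) ∫ |φ(y+h) - φ(y)|² dy ≤ K`, `sup_η |η|^α |φ^(η)| ≤ K` and `∫ |φ|^p ≥ 1/K`. -/
def Bump {m : ℕ} (α γ p R K : ℝ) (g : (Fin m → ℝ) → ℂ) : Prop :=
  ∃ (b : ℂ) (c : Fin m → ℝ) (r : ℝ) (φ : (Fin m → ℝ) → ℂ), 0 < r ∧ r ≤ R ∧ Integrable φ ∧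
    besov γ φ ≤ ENNReal.ofReal K ∧ decay α φ ≤ ENNReal.ofReal K ∧
    1 ≤ ENNReal.ofReal K * ∫⁻ y, ‖φ y‖ₑ ^ p ∧ g = fun y => b * φ (r⁻¹ • (y - c))

/-- The class of data on `ℝ^(m+1)`: for some orthonormal basis and for almost every `x`, the slice
is a countable sum of bumps and the sum of the `L^p` norms of the bumps is at most `Λ` times the
`L^p` norm of the slice. -/
def BumpData (m : ℕ) (α γ p R K Λ : ℝ) (f : E (m + 1) → ℂ) : Prop :=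
  ∃ v : OrthonormalBasis (Fin (m + 1)) ℝ (E (m + 1)), ∀ᵐ x : ℝ,
    ∃ a : ℕ → (Fin m → ℝ) → ℂ, (∀ j, Bump α γ p R K (a j)) ∧ Decomposes (slice v f x) a ∧
      ∑' j, (∫⁻ y, ‖a j y‖ₑ ^ p) ^ (1 / p) ≤
        ENNReal.ofReal Λ * (∫⁻ y, ‖slice v f x y‖ₑ ^ p) ^ (1 / p)

/-- **Local smoothing in terms of the regularity of slices.** -/
theorem result (m : ℕ) (hm : 1 ≤ m) (α γ p s : ℝ) (hα : 0 ≤ α) (hαp : α * p < m * (p - 1))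
    (_ : 0 < γ) (hp : 2 < p) (hp4 : p ≤ 4) (hs : 0 < s)
    (hs2 : ((m : ℝ) - α) * (p - 2) - γ < s * p) :
    (∃ C : ℝ, 0 < C ∧ ∀ (f₀ f₁ : E (m + 1) → ℂ)
      (v₀ v₁ : OrthonormalBasis (Fin (m + 1)) ℝ (E (m + 1))) (τ : ℝ),
      Integrable f₀ → Integrable f₁ → Admissible s τ f₀ f₁ →
      ∫⁻ t in Icc (1 : ℝ) 2, ∫⁻ z, ‖wave s τ f₀ f₁ t z‖ₑ ^ p ≤
        ENNReal.ofReal C * ((∫⁻ x, atomicNorm α γ p (slice v₀ f₀ x) ^ p) +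
          ∫⁻ x, atomicNorm α γ p (slice v₁ f₁ x) ^ p)) ∧
    (γ ≤ ((m : ℝ) - α) * (p - 2) → ∀ R K Λ : ℝ, 0 < R → 0 < K → 0 < Λ →
      Estimate s p (BumpData m α γ p R K Λ)) := by
  open Pool.Agent.TH280.LS Pool.Agent.R77.LSB in
  have hW : S_W := Pool.Agent.TH889.W.w_thm
  open Pool.Agent.TH280.LS in
  have hDUAL : S_DUAL := Pool.Agent.TH889.DUAL.dual_thm Pool.Agent.TH496.MOD.mod_thm hW
  open Pool.Agent.TH280.LS in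
  have hSUM : S_SUM := Pool.Agent.TH986.SUM.sum_thm (Pool.Agent.TH73.LS4.ls4_thm hDUAL hW)
  open Pool.Agent.TH280.LS in
  have hONEK : S_ONEK := Pool.Agent.TH346.ONEK.onek_thm (Pool.Agent.TH499.SUMK.sumk_thm hSUM)
  have hone := Pool.Agent.R77.LSB.atm_one (m := m) Pool.Agent.TH883.E4R.e4r_thm hONEK
    Pool.Agent.TH148.T2K.t2k_thm Pool.Agent.TH902.T4K.t4k_thm Pool.Agent.TH962.TPK.tpk_thm hm s p
    α γ hs hα hαp hs2 hp hp4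
  obtain ⟨C, hC, h⟩ := Pool.Agent.R77.LSB.wv_allS m s p _ hone hs hp.le
  have hneg : -s / 2 = -(s / 2) := by ring
  have hall : ∀ (f₀ f₁ : E (m + 1) → ℂ)
      (v₀ v₁ : OrthonormalBasis (Fin (m + 1)) ℝ (E (m + 1))) (τ : ℝ),
      Integrable f₀ → Integrable f₁ → Admissible s τ f₀ f₁ →
      ∫⁻ t in Icc (1 : ℝ) 2, ∫⁻ z, ‖wave s τ f₀ f₁ t z‖ₑ ^ p ≤
        ENNReal.ofReal C * ((∫⁻ x, atomicNorm α γ p (slice v₀ f₀ x) ^ p) +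
          ∫⁻ x, atomicNorm α γ p (slice v₁ f₁ x) ^ p) := by
    intro f₀ f₁ v₀ v₁ τ h0 h1 hadm
    obtain ⟨hτ, hτ1, hcase⟩ := hadm
    have key := h f₀ f₁ (∫⁻ x, atomicNorm α γ p (slice v₀ f₀ x) ^ p)
      (∫⁻ x, atomicNorm α γ p (slice v₁ f₁ x) ^ p) h0 h1 ⟨v₀, le_rfl⟩ ⟨v₁, le_rfl⟩ τ hτ hτ1 (by
      unfold bessel at hcase
      rw [hneg] at hcase
      exact hcase)
    have hw : ∀ t z, wave s τ f₀ f₁ t z = Pool.Agent.TH280.LS.wv (m + 1) s τ f₀ f₁ t z := by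
      intro t z
      unfold wave Pool.Agent.TH280.LS.wv bessel Pool.Agent.TH280.LS.e
      rw [hneg]
    simp only [hw]
    exact key
  refine ⟨⟨C, hC, hall⟩, ?_⟩
  intro hγ R K Λ hR hK hΛ
  have hL : 0 < Pool.Agent.R77.LSB.LB m α γ p R K := by
    unfold Pool.Agent.R77.LSB.LB
    positivity
  refine ⟨C * (Pool.Agent.R77.LSB.LB m α γ p R K * Λ ^ p), by positivity, ?_⟩
  intro f₀ f₁ τ h0 h1 hD0 hD1 hadm
  have hslice : ∀ (f : E (m + 1) → ℂ) (v : OrthonormalBasis (Fin (m + 1)) ℝ (E (m + 1))),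
      Integrable f → (∀ᵐ x : ℝ,
        ∃ a : ℕ → (Fin m → ℝ) → ℂ, (∀ j, Bump α γ p R K (a j)) ∧ Decomposes (slice v f x) a ∧
          ∑' j, (∫⁻ y, ‖a j y‖ₑ ^ p) ^ (1 / p) ≤
            ENNReal.ofReal Λ * (∫⁻ y, ‖slice v f x y‖ₑ ^ p) ^ (1 / p)) →
      ∫⁻ x, atomicNorm α γ p (slice v f x) ^ p ≤
        ENNReal.ofReal (Pool.Agent.R77.LSB.LB m α γ p R K * Λ ^ p) * ∫⁻ z, ‖f z‖ₑ ^ p := by
    intro f v hf hx
    have e1 : ∫⁻ x : ℝ, ∫⁻ y : Fin m → ℝ, ‖slice v f x y‖ₑ ^ p = ∫⁻ z, ‖f z‖ₑ ^ p :=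
      Pool.Agent.R77.LSB.lint_slc v f hf p
    rw [← e1, ← lintegral_const_mul' _ _ ENNReal.ofReal_ne_top]
    refine lintegral_mono_ae ?_
    filter_upwards [hx] with x hx
    obtain ⟨a, ha, ⟨-, hs1, hs2⟩, hq⟩ := hx
    exact Pool.Agent.R77.LSB.atm_bumps p α γ hp hαp hγ R K Λ hR hK hΛ (slice v f x) a ha hs1 hs2 hq
  obtain ⟨v₀, hv0⟩ := hD0
  obtain ⟨v₁, hv1⟩ := hD1
  refine (hall f₀ f₁ v₀ v₁ τ h0 h1 hadm).trans ?_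
  rw [ENNReal.ofReal_mul hC.le, mul_assoc, mul_add (ENNReal.ofReal (_ * Λ ^ p))]
  gcongr
  · exact hslice f₀ v₀ h0 hv0
  · exact hslice f₁ v₁ h1 hv1

end Pool.Agent.Results.MP_ee74d2_an.BesovSlices
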