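import Pool.Agent.R462.HS.Spec
import Pool.Agent.R462.HS.Ell
import Pool.Agent.TH280.LS.K3
import Pool.Agent.TH400.LS_E4
import Pool.Agent.TH496.LS_MOD
import Pool.Agent.TH889.LS_W
import Pool.Agent.TH889.LS_DUAL
import Pool.Agent.TH73.LS_LS4
import Pool.Agent.TH986.LS_SUM
import Pool.Agent.TH312.LS_ONE
import Pool.Agent.TH902.LS_T2
import Pool.Agent.TH228.LS_T4
import Pool.Agent.TH209.LS_TP
import Pool.Agent.TH883.LS.LSB_BALL
set_option autoImplicit false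

/-! # Local smoothing for data whose slices have spectra dominated by Hardy averages

The estimate of Q1 in every dimension `d = m + 1 ≥ 2`, for `2 ≤ p ≤ 4` (for `d ≥ 3` this contains
all exponents `2d/(d-1) ≤ p < 2(d+1)/(d-1)` for which the conjecture is open) and with
`s_p - σ` replaced by any `s > 0` (if `p ≥ 2d/(d-1)` and `σ < 1/p` then `s_p - σ > 0`), for all data
`f` on `ℝ^d` whose restrictions `g` to almost all hyperplanes orthogonal to some direction satisfy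
`|ĝ(η)| ≤ Λ Σ_{j<N} ∫ |g(y)| ∏_i (1 + |η_i (y_i - c_{j,i})|)^(-a) dy`,
where `a > 1 - 1/p` and where the centres `c_j ∈ ℝ^{d-1}` depend on the hyperplane in an arbitrary
way. Nothing is assumed on the dependence of `g` on the hyperplane, and `g` may be complex.

This condition is satisfied

* (2) if, up to a translation and a factor, the Fourier transform of `g` is nonnegative and at each
  `η` at most a constant times its average over the box `|ξ_i| ≤ |η_i|` (for instance,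
  nonincreasing in each `|η_i|`);
* (3) if the mixed differences of `g` are small in the mean away from the centres, at the rate of
  homogeneous functions;
* (4) for positive mixtures of functions which satisfy it with the same centres;
* (5), (6) for indicator functions of boxes which contain the centre, and of ellipsoids around the
  centre with axes parallel to the coordinate axes. There is no bound for the size or for the
  eccentricity of the boxes and ellipsoids.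
-/

open MeasureTheory Set
open scoped ENNReal FourierTransform RealInnerProductSpace

namespace Pool.Agent.Results.MP_ee74d2_an.HardySlices

/-- `ℝ^d` -/
abbrev E (d : ℕ) : Type := EuclideanSpace ℝ (Fin d)

/-- The Fourier transform `ĝ(η) = ∫ exp(-2πi y·η) g(y) dy` in `m` variables. -/
noncomputable def hat {m : ℕ} (g : (Fin m → ℝ) → ℂ) (η : Fin m → ℝ) : ℂ :=
  ∫ y : Fin m → ℝ, Complex.exp (((2 * Real.pi * -(∑ i, y i * η i) : ℝ) : ℂ) * Complex.I) * g y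

/-- The Hardy average `∫ |g(y)| ∏_i (1 + |η_i (y_i - c_i)|)^(-a) dy` around the point `c`. -/
noncomputable def avg {m : ℕ} (a : ℝ) (c η : Fin m → ℝ) (g : (Fin m → ℝ) → ℂ) : ℝ :=
  ∫ y : Fin m → ℝ, ‖g y‖ * ∏ i, (1 + |η i * (y i - c i)|) ^ (-a)

/-- The Fourier transform of `g` is dominated by the sum of the Hardy averages around the points
`c_0, …, c_{N-1}`. -/
def Dominated {m N : ℕ} (a Λ : ℝ) (c : Fin N → Fin m → ℝ) (g : (Fin m → ℝ) → ℂ) : Prop :=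
  ∀ η : Fin m → ℝ, (∀ i, η i ≠ 0) → ‖hat g η‖ ≤ Λ * ∑ j, avg a (c j) η g

/-- The class of data on `ℝ^(m+1)`: for some orthonormal basis `v_0, …, v_m` and for almost every
`x`, the slice `y ↦ f(Σ_{i<m} y_i v_i + x v_m)` is dominated, with `N` centres which depend on `x`
in any way. -/
def Data (m N : ℕ) (a Λ : ℝ) (f : E (m + 1) → ℂ) : Prop :=
  ∃ v : OrthonormalBasis (Fin (m + 1)) ℝ (E (m + 1)), ∀ᵐ x : ℝ, ∃ c : Fin N → Fin m → ℝ,
    Dominated a Λ c (fun y : Fin m → ℝ => f (∑ i, y i • v i.castSucc + x • v (Fin.last m)))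

/-- The symbol `(1 + 4π²|ζ|²)^(a/2)` of `(I - Δ)^(a/2)`. -/
noncomputable def bessel {d : ℕ} (a : ℝ) (ζ : E d) : ℝ :=
  (1 + 4 * Real.pi ^ 2 * ‖ζ‖ ^ 2) ^ (a / 2)

/-- For `τ = 0`: the solution `u(t, z)` of the wave equation on `ℝ^d` with data
`u(0) = (I - Δ)^(-s/2) f₀`, `∂ₜu(0) = (I - Δ)^((1-s)/2) f₁`, i.e. the inverse Fourier transform of
`cos(2πt|ζ|) (1+4π²|ζ|²)^(-s/2) f₀^(ζ) + sin(2πt|ζ|)/(2π|ζ|) (1+4π²|ζ|²)^((1-s)/2) f₁^(ζ)`.
For `τ > 0`: the same with the factor `exp(-τ|ζ|²)` (the solution regularised by the heat flow). -/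
noncomputable def wave {d : ℕ} (s τ : ℝ) (f₀ f₁ : E d → ℂ) (t : ℝ) (z : E d) : ℂ :=
  ∫ ζ : E d, Complex.exp (((2 * Real.pi * ⟪z, ζ⟫ : ℝ) : ℂ) * Complex.I) *
    (((Real.exp (-(τ * ‖ζ‖ ^ 2)) : ℝ) : ℂ) *
      (((Real.cos (2 * Real.pi * (t * ‖ζ‖)) * bessel (-s) ζ : ℝ) : ℂ) * 𝓕 f₀ ζ +
       ((Real.sin (2 * Real.pi * (t * ‖ζ‖)) / (2 * Real.pi * ‖ζ‖) * bessel (1 - s) ζ : ℝ) : ℂ) *
        𝓕 f₁ ζ))

/-- The estimate for data in the class `D`: there is a constant `C` such that for all integrable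
`f₀, f₁` in `D` and all `0 ≤ τ ≤ 1`, where for `τ = 0` we assume that `(I - Δ)^(-s/2) f₀` and
`(I - Δ)^(-s/2) f₁` have integrable Fourier transforms (this holds for Schwartz functions),
`∫_1^2 ‖u(t)‖_p^p dt ≤ C (‖f₀‖_p^p + ‖f₁‖_p^p)`. -/
def Estimate {d : ℕ} (s p : ℝ) (D : (E d → ℂ) → Prop) : Prop :=
  ∃ C : ℝ, 0 < C ∧ ∀ f₀ f₁ : E d → ℂ, Integrable f₀ → Integrable f₁ → D f₀ → D f₁ →
    ∀ τ : ℝ, 0 ≤ τ → τ ≤ 1 →
    (0 < τ ∨ (Integrable (fun ζ => ((bessel (-s) ζ : ℝ) : ℂ) * 𝓕 f₀ ζ) ∧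
      Integrable (fun ζ => ((bessel (-s) ζ : ℝ) : ℂ) * 𝓕 f₁ ζ))) →
    ∫⁻ t in Icc (1 : ℝ) 2, ∫⁻ z, ‖wave s τ f₀ f₁ t z‖ₑ ^ p ≤
      ENNReal.ofReal C * ((∫⁻ z, ‖f₀ z‖ₑ ^ p) + ∫⁻ z, ‖f₁ z‖ₑ ^ p)

/-- Unimodal spectrum around `c`: `ĝ(η) = b exp(-2πi c·η) Φ(η)` with `Φ ≥ 0`, and `Φ(η)` is at most
`2^m Λ` times the average of `Φ` over the box `{|ξ_i| ≤ |η_i| for all i}`. For `Λ = 2^(-m)` this
holds if `Φ(ξ) ≥ Φ(η)` whenever `|ξ_i| ≤ |η_i|` for all `i`. -/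
def UnimodalSpectrum {m : ℕ} (Λ : ℝ) (c : Fin m → ℝ) (g : (Fin m → ℝ) → ℂ) : Prop :=
  ∃ (b : ℂ) (Φ : (Fin m → ℝ) → ℝ), (∀ η, 0 ≤ Φ η) ∧
    (∀ η : Fin m → ℝ, (∀ i, η i ≠ 0) →
      Φ η * ∏ i, |η i| ≤ Λ * ∫ ξ in {ξ : Fin m → ℝ | ∀ i, |ξ i| ≤ |η i|}, Φ ξ) ∧
    ∀ η, hat g η = b * Complex.exp (((2 * Real.pi * -(∑ i, c i * η i) : ℝ) : ℂ) * Complex.I) *
      ((Φ η : ℝ) : ℂ)

/-- The mixed difference `∑_{S ⊆ {0,…,m-1}} (-1)^|S| g(y + h_S)`, where `h_S` has the coordinates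
`h_i` for `i ∈ S` and `0` otherwise. -/
noncomputable def mixedDiff {m : ℕ} (g : (Fin m → ℝ) → ℂ) (h y : Fin m → ℝ) : ℂ :=
  ∑ S : Finset (Fin m), (-1) ^ S.card * g (y + fun i => if i ∈ S then h i else 0)

/-- The ellipsoid with centre `c` and half-axes `l_i` parallel to the coordinate axes. -/
def ellipsoid {m : ℕ} (c l : Fin m → ℝ) : Set (Fin m → ℝ) := {y | ∑ i, ((y i - c i) / l i) ^ 2 ≤ 1}

/-- The indicator function of the set `S`. -/
noncomputable def ind {m : ℕ} (S : Set (Fin m → ℝ)) (y : Fin m → ℝ) : ℂ :=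
  ((S.indicator (fun _ => (1 : ℝ)) y : ℝ) : ℂ)

/-- **Local smoothing for data with slices dominated by Hardy averages**, with criteria and
examples. -/
theorem result (m : ℕ) (hm : 1 ≤ m) :
    -- (1) the estimate
    (∀ (N : ℕ) (p s a Λ : ℝ), 2 ≤ p → p ≤ 4 → 0 < s → 1 - 1 / p < a → a ≤ 1 → 0 ≤ Λ →
      Estimate s p (Data m N a Λ)) ∧
    -- (2) unimodal spectra
    (∀ (a Λ : ℝ) (c : Fin m → ℝ) (g : (Fin m → ℝ) → ℂ), 0 ≤ a → a ≤ 1 → 0 ≤ Λ → Integrable g →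
      UnimodalSpectrum Λ c g → Dominated a (100 ^ m * Λ) (fun _ : Fin 1 => c) g) ∧
    -- (3) mixed differences
    (∀ (N : ℕ) (a Λ : ℝ) (c : Fin N → Fin m → ℝ) (g : (Fin m → ℝ) → ℂ), 0 ≤ a → 0 ≤ Λ →
      Integrable g →
      (∀ h : Fin m → ℝ, (∀ i, h i ≠ 0) → ∫ y, ‖mixedDiff g h y‖ ≤
        Λ * ∑ j, avg a (c j) (fun i => (h i)⁻¹) g) → Dominated a Λ c g) ∧
    -- (4) positive mixtures
    (∀ (N : ℕ) (a Λ : ℝ) (c : Fin N → Fin m → ℝ) (g : (Fin m → ℝ) → ℂ) (b : ℂ) (Ω : Type)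
      [MeasurableSpace Ω] (μ : Measure Ω) [SFinite μ] (K : Ω → (Fin m → ℝ) → ℝ), 0 ≤ a → 0 ≤ Λ →
      Measurable (Function.uncurry K) → (∀ ω y, 0 ≤ K ω y) →
      ∫⁻ ω, (∫⁻ y, ENNReal.ofReal (K ω y)) ∂μ ≠ ⊤ →
      (∀ᵐ ω ∂μ, Dominated a Λ c (fun y => ((K ω y : ℝ) : ℂ))) →
      (∀ᵐ y, g y = b * ((∫ ω, K ω y ∂μ : ℝ) : ℂ)) → Dominated a Λ c g) ∧
    -- (5) boxes
    (∀ (a : ℝ) (c l r : Fin m → ℝ), 0 ≤ a → a ≤ 1 → (∀ i, l i ≤ c i) → (∀ i, c i ≤ r i) →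
      Dominated a (4 ^ m) (fun _ : Fin 1 => c) (ind (Icc l r))) ∧
    -- (6) ellipsoids
    ∃ C : ℝ, 0 < C ∧ ∀ (a : ℝ) (c l : Fin m → ℝ), 0 ≤ a → a ≤ ((m : ℝ) + 1) / (2 * m) →
      (∀ i, 0 < l i) → Dominated a C (fun _ : Fin 1 => c) (ind (ellipsoid c l)) := by
  open Pool.Agent.TH280.LS in
  refine ⟨?_, ?_, ?_, ?_, ?_, ?_⟩
  · intro N p s a Λ hp hp4 hs ha ha1 hΛ
    have hW : S_W := Pool.Agent.TH889.W.w_thm
    have hDUAL : S_DUAL := Pool.Agent.TH889.DUAL.dual_thm Pool.Agent.TH496.MOD.mod_thm hW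
    have hONE : S_ONE := Pool.Agent.TH312.ONE.one_thm
      (Pool.Agent.TH986.SUM.sum_thm (Pool.Agent.TH73.LS4.ls4_thm hDUAL hW))
    have hTP : S_TP := Pool.Agent.TH209.TP.tp_thm Pool.Agent.TH902.T2.t2_thm
      (Pool.Agent.TH228.T4.t4_thm Pool.Agent.TH400.E4.e4_thm hONE)
    have hone : OneD m s p (Pool.Agent.R462.HS.Cls m N a Λ) :=
      Pool.Agent.R462.HS.cls_one hTP hm N hs hp hp4 ha ha1 hΛ
    obtain ⟨C, hC, h⟩ := wv_all m s p (Pool.Agent.R462.HS.Cls m N a Λ) hone hs hp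
    refine ⟨C, hC, ?_⟩
    intro f₀ f₁ h0 h1 hc0 hc1 τ hτ hτ1 hcase
    have hneg : -s / 2 = -(s / 2) := by ring
    have key := h f₀ f₁ h0 h1 hc0 hc1 τ hτ hτ1 (by
      unfold bessel at hcase
      rw [hneg] at hcase
      exact hcase)
    have hw : ∀ t z, wave s τ f₀ f₁ t z = wv (m + 1) s τ f₀ f₁ t z := by
      intro t z
      unfold wave wv bessel e
      rw [hneg]
    simp only [hw]
    exact key
  · intro a Λ c g ha ha1 hΛ hg h
    obtain ⟨b, Φ, hΦ, hav, hgΦ⟩ := h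
    exact Pool.Agent.R462.HS.spec_dom' ha ha1 hΛ hg b c Φ hΦ hav hgΦ
  · intro N a Λ c g ha hΛ hg h
    refine Pool.Agent.R462.HS.diff_dom' ha hΛ hg c fun k hk => ?_
    refine (h k hk).trans (le_of_eq ?_)
    unfold avg
    simp only [div_eq_inv_mul]
  · intro N a Λ c g b Ω _ μ _ K ha hΛ hKm hK0 hfin hD hg
    refine Pool.Agent.R462.HS.mix_dom' ha hΛ μ K hKm hK0 hfin c ?_ b g hg
    filter_upwards [hD] with ω hω η hη
    refine (hω η hη).trans (le_of_eq ?_)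
    unfold avg
    simp only [Complex.norm_real, Real.norm_eq_abs, abs_of_nonneg (hK0 _ _)]
  · intro a c l r ha ha1 hl hr η hη
    refine (Pool.Agent.R462.HS.box_dom ha ha1 hl hr η hη).trans (le_of_eq ?_)
    unfold avg ind
    simp only [Complex.norm_real, Real.norm_eq_abs, Finset.sum_const, Finset.card_univ,
      Fintype.card_fin, one_smul]
    congr 2
    funext y
    rw [abs_of_nonneg (indicator_nonneg (fun _ _ => zero_le_one) y)]
  · obtain ⟨C, hC, h⟩ := Pool.Agent.R462.HS.ell_dom Pool.Agent.TH883.BALL.ball_thm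
      Pool.Agent.Y195.LS2.thm (show 0 < m from hm)
    refine ⟨C, hC, fun a c l ha ham hl η _ => ?_⟩
    refine (h a c l ha ham hl η).trans (le_of_eq ?_)
    unfold avg ind
    simp only [Complex.norm_real, Real.norm_eq_abs, Finset.sum_const, Finset.card_univ,
      Fintype.card_fin, one_smul]
    congr 2
    funext y
    rw [abs_of_nonneg (indicator_nonneg (fun _ _ => zero_le_one) y)]
    rfl

end Pool.Agent.Results.MP_ee74d2_an.HardySlices
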