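import Pool.Agent.R245.WB.Pl
import Pool.Agent.R245.WB.Tm
import Pool.Agent.R245.WB.L2
import Pool.Agent.R245.WB.Sup
import Pool.Agent.R245.WB.Op
import Pool.Agent.R245.WB.Bes
import Pool.Agent.R245.WB.Adm
import Pool.Agent.R245.WB.Rep
import Pool.Agent.R245.WG.Lapg
import Pool.Agent.R245.WG.Wtg
import Pool.Agent.R245.WG.Qg
import Pool.Agent.R245.WG.Hi
import Pool.Agent.R245.WG.LoB
import Pool.Agent.R245.WG.CoB
import Pool.Agent.R245.WG.Sym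
import Pool.Agent.R245.WG.Decg
import Pool.Agent.R245.WG.Dcg
import Pool.Agent.R245.WG.Dsg
import Pool.Agent.R245.WG.Termg
import Pool.Agent.R245.WG.Fing

set_option autoImplicit false

/-! # The wave equation for data with Besov regularity in some of the variables

Let `k, n ≥ 1`, `d = k + n`, `2 < p < ∞`, `s > 0`, `α > 0`, and let `u` be the solution of the wave
equation on `ℝ^d` with data `u(0) = (I - Δ)^(-s/2) f₀`, `∂ₜu(0) = (I - Δ)^((1-s)/2) f₁`.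

(1) Fixed time estimate. If `s > d (1/2 - 1/p) - α` and `s > (n-1) (1/2 - 1/p)`, then for all
Schwartz functions `f₀`, `f₁` and `1 ≤ t ≤ 2`
`‖u(t)‖_p ≤ C (‖f₀‖_* + ‖f₁‖_*)`.
Here `‖f‖_*` is the infimum of `∑_ν (∫_{ℝ^n} ‖g_ν(·, x)‖_B^p dx)^(1/p)` over the decompositions
`f = ∑_ν g_ν` into any finite number of Schwartz functions, where
`‖g‖_B = max(‖g‖_2, sup_h |h|^(-α) ‖g(· + h) - g‖_2)` (the norm of `B^α_{2,∞}(ℝ^k)` if `α < 1`) and, for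
each `ν`, `(y, x) ∈ ℝ^k × ℝ^n` are the coordinates in an orthonormal basis which may depend on
`ν`. Nothing is assumed on the regularity in the variables `x ∈ ℝ^n`.

For `α = 1/2` the first threshold is `d (1/2 - 1/p) - 1/2 = s_p - 1/p`, the threshold of Q1, and the
second one is not larger if and only if `p ≥ 2 + 2/k`. For `k > (d-1)/2` this contains exponents
`p < 2(d+1)/(d-1)`, and for `k = d - 1` all the exponents `p ≥ 2d/(d-1)` of Q1.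

(2) The estimate `‖u(t)‖_p ≤ C Λ^(3/2) (‖f₀‖_p + ‖f₁‖_p)`, `1 ≤ t ≤ 2`, under the same conditions,
for the data `f` which are finite sums `f = ∑_ν g_ν` with `∑_ν ‖g_ν‖_p ≤ Λ ‖f‖_p` and
`‖g_ν(·, x)‖_B² ≤ Λ ‖g_ν(·, x)‖_{L^p(ℝ^k)}²` for all `x ∈ ℝ^n`. With `α = 1/2` and
`s = s_p - σ`, this is the estimate of Q1 for every `σ < 1/p` and `p ≥ 2 + 2/k`, for this class of
data, and without the integration in time. -/

open MeasureTheory Set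
open scoped ENNReal FourierTransform RealInnerProductSpace SchwartzMap

namespace Pool.Agent.Results.MP_ee74d2_an.PartialBesov

/-- `ℝ^d` -/
abbrev E (d : ℕ) : Type := EuclideanSpace ℝ (Fin d)

/-- The symbol `(1 + 4π²|ζ|²)^(a/2)` of `(I - Δ)^(a/2)`. -/
noncomputable def bessel {d : ℕ} (a : ℝ) (ζ : E d) : ℝ :=
  (1 + 4 * Real.pi ^ 2 * ‖ζ‖ ^ 2) ^ (a / 2)

/-- The solution `u(t, z)` of the wave equation on `ℝ^d` with data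
`u(0) = (I - Δ)^(-s/2) f₀`, `∂ₜu(0) = (I - Δ)^((1-s)/2) f₁`, i.e. the inverse Fourier transform of
`cos(2πt|ζ|) (1+4π²|ζ|²)^(-s/2) f₀^(ζ) + sin(2πt|ζ|)/(2π|ζ|) (1+4π²|ζ|²)^((1-s)/2) f₁^(ζ)`. -/
noncomputable def wave {d : ℕ} (s : ℝ) (f₀ f₁ : E d → ℂ) (t : ℝ) (z : E d) : ℂ :=
  ∫ ζ : E d, Complex.exp (((2 * Real.pi * ⟪z, ζ⟫ : ℝ) : ℂ) * Complex.I) *
    (((Real.cos (2 * Real.pi * (t * ‖ζ‖)) * bessel (-s) ζ : ℝ) : ℂ) * 𝓕 f₀ ζ +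
      ((Real.sin (2 * Real.pi * (t * ‖ζ‖)) / (2 * Real.pi * ‖ζ‖) * bessel (1 - s) ζ : ℝ) : ℂ) *
        𝓕 f₁ ζ)

/-- The `L^p` norm. -/
noncomputable def LN {X : Type} [MeasureSpace X] (p : ℝ) (F : X → ℂ) : ℝ≥0∞ :=
  (∫⁻ z, ‖F z‖ₑ ^ p) ^ (1 / p)

/-- The point `∑_i y_i v_i + ∑_j x_j v_j` with coordinates `(y, x)` in an orthonormal basis. -/
noncomputable def point {k n d : ℕ} (v : OrthonormalBasis (Fin k ⊕ Fin n) ℝ (E d)) (y : E k)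
    (x : E n) : E d :=
  ∑ i, y i • v (Sum.inl i) + ∑ j, x j • v (Sum.inr j)

/-- The slice `y ↦ f(∑_i y_i v_i + ∑_j x_j v_j)` of `f`, a function on `ℝ^k`. -/
noncomputable def slice {k n d : ℕ} (v : OrthonormalBasis (Fin k ⊕ Fin n) ℝ (E d)) (f : E d → ℂ)
    (x : E n) (y : E k) : ℂ := f (point v y x)

/-- `max(∫ |g|², sup_{h ≠ 0} |h|^(-2α) ∫ |g(y+h) - g(y)|² dy)`, for `α < 1` the square of the norm
of the Besov space `B^α_{2,∞}(ℝ^k)`. -/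
noncomputable def besovSq (k : ℕ) (α : ℝ) (g : E k → ℂ) : ℝ≥0∞ :=
  max (∫⁻ y : E k, ‖g y‖ₑ ^ 2)
    (⨆ h : {h : E k // h ≠ 0},
      (∫⁻ y : E k, ‖g (y + h.1) - g y‖ₑ ^ 2) / ENNReal.ofReal (‖h.1‖ ^ (2 * α)))

/-- The mixed norm `(∫_{ℝ^n} ‖g(·, x)‖_B^p dx)^(1/p)` in the coordinates given by `v`. -/
noncomputable def mixedNorm {k n d : ℕ} (α p : ℝ)
    (v : OrthonormalBasis (Fin k ⊕ Fin n) ℝ (E d)) (g : E d → ℂ) : ℝ≥0∞ :=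
  (∫⁻ x : E n, besovSq k α (slice v g x) ^ (p / 2)) ^ (1 / p)

/-- The class of data: finite sums `f = ∑_ν g_ν` with `∑_ν ‖g_ν‖_p ≤ Λ ‖f‖_p` and
`‖g_ν(·, x)‖_B² ≤ Λ ‖g_ν(·, x)‖_p²` for all `x`, in orthonormal coordinates `v_ν`. -/
def Regular (k n : ℕ) (α p Λ : ℝ) (f : 𝓢(E (k + n), ℂ)) : Prop :=
  ∃ (N : ℕ) (g : Fin N → 𝓢(E (k + n), ℂ))
    (v : Fin N → OrthonormalBasis (Fin k ⊕ Fin n) ℝ (E (k + n))),
    f = ∑ ν, g ν ∧ (∀ ν x, besovSq k α (slice (v ν) (g ν : E (k + n) → ℂ) x) ≤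
      ENNReal.ofReal Λ *
        (∫⁻ y : E k, ‖slice (v ν) (g ν : E (k + n) → ℂ) x y‖ₑ ^ p) ^ (2 / p)) ∧
    ∑ ν, LN p (g ν : E (k + n) → ℂ) ≤ ENNReal.ofReal Λ * LN p (f : E (k + n) → ℂ)

open Pool.Agent.R245.WB Pool.Agent.R245.WG in
/-- **Fixed time estimate for the wave equation and data with partial Besov regularity.** -/
theorem result (k n : ℕ) (hk : 1 ≤ k) (hn : 1 ≤ n) (p s α : ℝ) (hp : 2 < p) (hs : 0 < s)
    (hα : 0 < α) (h1 : ((k : ℝ) + n) * (1 / 2 - 1 / p) - α < s)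
    (h2 : ((n : ℝ) - 1) * (1 / 2 - 1 / p) < s) :
    (∃ C : ℝ, 0 < C ∧ ∀ (N : ℕ) (f₀ f₁ : Fin N → 𝓢(E (k + n), ℂ))
      (v₀ v₁ : Fin N → OrthonormalBasis (Fin k ⊕ Fin n) ℝ (E (k + n))) (t : ℝ), 1 ≤ t → t ≤ 2 →
      LN p (wave s ((∑ ν, f₀ ν : 𝓢(E (k + n), ℂ)) : E (k + n) → ℂ)
        ((∑ ν, f₁ ν : 𝓢(E (k + n), ℂ)) : E (k + n) → ℂ) t) ≤
      ENNReal.ofReal C * ∑ ν, (mixedNorm α p (v₀ ν) (f₀ ν : E (k + n) → ℂ) +
        mixedNorm α p (v₁ ν) (f₁ ν : E (k + n) → ℂ))) ∧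
    (∃ C : ℝ, 0 < C ∧ ∀ (Λ : ℝ), 0 < Λ → ∀ (f₀ f₁ : 𝓢(E (k + n), ℂ)) (t : ℝ), 1 ≤ t → t ≤ 2 →
      Regular k n α p Λ f₀ → Regular k n α p Λ f₁ →
      LN p (wave s (f₀ : E (k + n) → ℂ) (f₁ : E (k + n) → ℂ) t) ≤
      ENNReal.ofReal (C * Λ ^ (3 / 2 : ℝ)) *
        (LN p (f₀ : E (k + n) → ℂ) + LN p (f₁ : E (k + n) → ℂ))) := by
  have hADM : S_ADM := adm_thm
  have hOP : S_OP := op_thm tm_thm l2_thm sup_thm
  have hQ : S_QG := qg_thm lapg_thm wtg_thm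
  have hTERM : S_TERMG := termg_thm hOP hQ bes_thm hADM
  have hSUM : S_SUMG := sumg_thm tm_thm hADM (rep_thm hADM) hTERM
  have hDEC : S_DECG := decg_thm hi_thm lob_thm
  have hDC : S_DCG := dcg_thm hDEC sym_thm cob_thm
  have hDS : S_DSG := dsg_thm hDEC sym_thm cob_thm
  exact ⟨part1 hSUM hDC hDS k n p s α hk hn hp hs hα h1 h2,
    part2 hSUM hDC hDS k n p s α hk hn hp hs hα h1 h2⟩

end Pool.Agent.Results.MP_ee74d2_an.PartialBesov
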